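import Mathlib

/-!
# Log-convex sequences of maximal growth
-/

set_option autoImplicit false

open Filter Topology

namespace Pool.Agent.Helper92.ZP

/-- the ratios of a log-convex sequence increase -/
theorem ratio_mono {s : ℕ → ℝ} (hs : ∀ l, 0 < s l) (hlc : ∀ l, s (l + 1) ^ 2 ≤ s l * s (l + 2)) :
    Monotone fun l => s (l + 1) / s l := by
  refine monotone_nat_of_le_succ fun l => ?_
  show s (l + 1) / s l ≤ s (l + 1 + 1) / s (l + 1)
  rw [div_le_div_iff₀ (hs l) (hs (l + 1))]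
  have := hlc l
  nlinarith [this]

theorem ge_of_ratio {s : ℕ → ℝ} (hs : ∀ l, 0 < s l)
    (hm : Monotone fun l => s (l + 1) / s l) (l₀ j : ℕ) :
    s l₀ * (s (l₀ + 1) / s l₀) ^ j ≤ s (l₀ + j) := by
  induction j with
  | zero => simp
  | succ j ih =>
    have h1 : s (l₀ + 1) / s l₀ ≤ s (l₀ + j + 1) / s (l₀ + j) := hm (Nat.le_add_right l₀ j)
    have h2 : 0 ≤ s (l₀ + 1) / s l₀ := (div_pos (hs _) (hs _)).le
    rw [pow_succ, ← mul_assoc, ← Nat.add_assoc]
    calc s l₀ * (s (l₀ + 1) / s l₀) ^ j * (s (l₀ + 1) / s l₀)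
        ≤ s (l₀ + j) * (s (l₀ + j + 1) / s (l₀ + j)) :=
          mul_le_mul ih h1 h2 (hs _).le
      _ = s (l₀ + j + 1) := mul_div_cancel₀ _ (hs _).ne'

/-- A log-convex positive sequence `s l ≤ C * B ^ l` which is infinitely often at least
`ε * B ^ l / (l + 1) ^ M` has `s (l + 1) / s l → B`. -/
theorem tendsto_ratio {s : ℕ → ℝ} {B C ε : ℝ} (M : ℕ) (hB : 0 < B) (hs : ∀ l, 0 < s l)
    (hlc : ∀ l, s (l + 1) ^ 2 ≤ s l * s (l + 2)) (hub : ∀ l, s l ≤ C * B ^ l) (hε : 0 < ε)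
    (hinf : ∃ᶠ l : ℕ in atTop, ε * B ^ l / ((l : ℝ) + 1) ^ M ≤ s l) :
    Tendsto (fun l => s (l + 1) / s l) atTop (𝓝 B) := by
  have hm := ratio_mono hs hlc
  -- the ratios are at most `B`
  have hle : ∀ l, s (l + 1) / s l ≤ B := by
    intro l₀
    by_contra hlt
    rw [not_le] at hlt
    set q := s (l₀ + 1) / s l₀ with hq
    have hC : 0 < C := by
      have := (hs 0).trans_le (hub 0)
      simpa using this
    have h1 : ∀ j : ℕ, (q / B) ^ j ≤ C * B ^ l₀ / s l₀ := by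
      intro j
      have h2 := (ge_of_ratio hs hm l₀ j).trans (hub (l₀ + j))
      rw [div_pow, div_le_div_iff₀ (pow_pos hB _) (hs _)]
      calc q ^ j * s l₀ = s l₀ * q ^ j := mul_comm _ _
        _ ≤ C * B ^ (l₀ + j) := h2
        _ = C * B ^ l₀ * B ^ j := by rw [pow_add]; ring
    have h3 : 1 < q / B := by rwa [lt_div_iff₀ hB, one_mul]
    have h4 := tendsto_pow_atTop_atTop_of_one_lt h3
    obtain ⟨j, hj⟩ := (h4.eventually_gt_atTop (C * B ^ l₀ / s l₀)).exists
    exact absurd (h1 j) (not_le.2 hj)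
  have hbdd : BddAbove (Set.range fun l => s (l + 1) / s l) :=
    ⟨B, by rintro _ ⟨l, rfl⟩; exact hle l⟩
  have hlim := tendsto_atTop_ciSup hm hbdd
  set ρ := ⨆ l, s (l + 1) / s l with hρ
  have hρB : ρ ≤ B := ciSup_le hle
  have hρl : ∀ l, s (l + 1) / s l ≤ ρ := fun l => le_ciSup hbdd l
  rcases hρB.lt_or_eq with hlt | heq
  · exfalso
    have hρ0 : 0 < ρ := (div_pos (hs 1) (hs 0)).trans_le (hρl 0)
    have hup : ∀ l, s l ≤ s 0 * ρ ^ l := by
      intro l
      induction l with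
      | zero => simp
      | succ l ih =>
        have h1 := hρl l
        rw [div_le_iff₀ (hs l)] at h1
        rw [pow_succ]
        nlinarith [mul_le_mul_of_nonneg_left ih hρ0.le]
    have h5 : Tendsto (fun l : ℕ => (l : ℝ) ^ M * (ρ / B) ^ l) atTop (𝓝 0) :=
      tendsto_pow_const_mul_const_pow_of_abs_lt_one M (by
        rw [abs_of_pos (div_pos hρ0 hB), div_lt_one hB]
        exact hlt)
    have h6 : Tendsto (fun l : ℕ => s 0 * (ρ / B) ^ l * ((l : ℝ) + 1) ^ M) atTop (𝓝 0) := by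
      have h7 := (h5.comp (tendsto_add_atTop_nat 1)).const_mul (s 0 * (B / ρ))
      rw [mul_zero] at h7
      refine h7.congr fun l => ?_
      simp only [Function.comp_apply]
      push_cast
      rw [pow_succ (ρ / B)]
      have : B / ρ * (ρ / B) = 1 := by field_simp
      calc s 0 * (B / ρ) * (((l : ℝ) + 1) ^ M * ((ρ / B) ^ l * (ρ / B)))
          = s 0 * (ρ / B) ^ l * ((l : ℝ) + 1) ^ M * (B / ρ * (ρ / B)) := by ring
        _ = _ := by rw [this, mul_one]
    have h8 := h6.eventually_lt_const hε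
    obtain ⟨l, hl1, hl2⟩ := (hinf.and_eventually h8).exists
    have h9 : (0 : ℝ) < ((l : ℝ) + 1) ^ M := by positivity
    rw [div_le_iff₀ h9] at hl1
    have h10 : ε * B ^ l ≤ s 0 * ρ ^ l * ((l : ℝ) + 1) ^ M :=
      hl1.trans (mul_le_mul_of_nonneg_right (hup l) h9.le)
    have h11 : s 0 * (ρ / B) ^ l * ((l : ℝ) + 1) ^ M * B ^ l =
        s 0 * ρ ^ l * ((l : ℝ) + 1) ^ M := by
      rw [div_pow]
      field_simp
    rw [← h11] at h10
    exact absurd (le_of_mul_le_mul_right h10 (pow_pos hB l)) (not_le.2 hl2)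
  · rwa [heq] at hlim

end Pool.Agent.Helper92.ZP
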